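import Mathlib
import Pool.Agent.R953.GW

/-!
# An annealed survival function with an order-2 expansion at criticality which is not C^2
-/

set_option autoImplicit false

open MeasureTheory ProbabilityTheory Filter
open scoped ENNReal NNReal Topology

namespace Pool.Agent.Results.MP_97806e_pr.ExpansionNotSmooth

open Pool.Agent.R953.Branch Pool.Agent.R953.GW

/-- The mean of the offspring distribution `μ`. -/
noncomputable def mean (μ : PMF ℕ) : ℝ := ∑' n, (μ n).toReal * n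

/-- `f` has an order-`k` expansion at `a` from the right. -/
def HasExpansion (f : ℝ → ℝ) (a : ℝ) (k : ℕ) : Prop :=
  ∃ c : ℕ → ℝ, (fun ε => f (a + ε) - ∑ j ∈ Finset.range (k + 1), c j * ε ^ j) =o[𝓝[>] 0]
    (fun ε => ε ^ k)

/-- `f` is of class `C ^ k` at `a` from the right. -/
def IsClass (f : ℝ → ℝ) (a : ℝ) (k : ℕ) : Prop :=
  ∃ δ > 0, ContDiffOn ℝ k f (Set.Ico a (a + δ))

section sequences

/-- the support of the offspring distribution -/
def nn (j : ℕ) : ℕ := 2 ^ (8 ^ j - 1)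

lemma nn_zero : nn 0 = 1 := by norm_num [nn]

lemma nn_succ (j : ℕ) : nn (j + 1) = 128 * nn j ^ 8 := by
  unfold nn
  have h : 1 ≤ 8 ^ j := Nat.one_le_pow _ _ (by norm_num)
  rw [← pow_mul, show (128 : ℕ) = 2 ^ 7 by norm_num, ← pow_add]
  congr 1
  rw [pow_succ]
  omega

lemma nn_pos (j : ℕ) : 0 < nn j := by unfold nn; positivity

lemma nn_strictMono : StrictMono nn := by
  apply strictMono_nat_of_lt_succ
  intro j
  rw [nn_succ]
  have h := nn_pos j
  calc nn j < 128 * nn j := by omega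
    _ = 128 * nn j ^ 1 := by rw [pow_one]
    _ ≤ 128 * nn j ^ 8 := Nat.mul_le_mul_left _ (Nat.pow_le_pow_right h (by norm_num))

lemma nn_ge (j : ℕ) : 128 ^ j ≤ nn j := by
  induction j with
  | zero => simp [nn_zero]
  | succ j ih =>
    rw [nn_succ, pow_succ, mul_comm]
    apply Nat.mul_le_mul_left
    calc 128 ^ j ≤ nn j := ih
      _ = nn j ^ 1 := (pow_one _).symm
      _ ≤ nn j ^ 8 := Nat.pow_le_pow_right (nn_pos j) (by norm_num)

/-- unnormalized weights -/
noncomputable def bb (j : ℕ) : ℝ := (2⁻¹) ^ j / nn j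

lemma bb_pos (j : ℕ) : 0 < bb j := by
  unfold bb
  have : (0 : ℝ) < nn j := by exact_mod_cast nn_pos j
  positivity

lemma bb_le (j : ℕ) : bb j ≤ (2⁻¹) ^ j := by
  unfold bb
  apply div_le_self (by positivity)
  exact_mod_cast nn_pos j

lemma summable_half : Summable (fun j : ℕ => (2⁻¹ : ℝ) ^ j) :=
  summable_geometric_of_lt_one (by norm_num) (by norm_num)

lemma tsum_half : ∑' j : ℕ, (2⁻¹ : ℝ) ^ j = 2 := by
  rw [tsum_geometric_of_lt_one (by norm_num) (by norm_num)]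
  norm_num

lemma summable_bb : Summable bb :=
  Summable.of_nonneg_of_le (fun j => (bb_pos j).le) bb_le summable_half

/-- normalization -/
noncomputable def ZZ : ℝ := ∑' j, bb j

lemma ZZ_ge : 1 ≤ ZZ := by
  have h := summable_bb.sum_le_tsum {0} fun j _ => (bb_pos j).le
  simp only [Finset.sum_singleton] at h
  have : bb 0 = 1 := by simp [bb, nn_zero]
  rw [this] at h
  exact h

lemma ZZ_lt : ZZ < 2 := by
  have h : ZZ < ∑' j : ℕ, (2⁻¹ : ℝ) ^ j := by
    apply Summable.tsum_lt_tsum (i := 1) bb_le _ summable_bb summable_half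
    unfold bb
    rw [nn_succ, nn_zero]
    norm_num
  rwa [tsum_half] at h

/-- the weights -/
noncomputable def cc (j : ℕ) : ℝ := bb j / ZZ

lemma ZZ_pos : 0 < ZZ := lt_of_lt_of_le one_pos ZZ_ge

lemma cc_pos (j : ℕ) : 0 < cc j := div_pos (bb_pos j) ZZ_pos

lemma hasSum_cc : HasSum cc 1 := by
  have h := summable_bb.hasSum.div_const ZZ
  have h2 : (∑' j, bb j) / ZZ = 1 := div_self ZZ_pos.ne'
  rw [h2] at h
  exact h

lemma summable_cc : Summable cc := hasSum_cc.summable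

lemma cc_nn (j : ℕ) : cc j * nn j = (2⁻¹) ^ j / ZZ := by
  unfold cc bb
  have : (nn j : ℝ) ≠ 0 := by exact_mod_cast (nn_pos j).ne'
  have := ZZ_pos.ne'
  field_simp

lemma summable_cc_nn : Summable (fun j => cc j * nn j) := by
  simp only [cc_nn]
  exact summable_half.div_const _

/-- the mean -/
noncomputable def mm : ℝ := 2 / ZZ

lemma tsum_cc_nn : ∑' j, cc j * nn j = mm := by
  simp only [cc_nn]
  rw [tsum_div_const, tsum_half]
  rfl

lemma mm_gt : 1 < mm := by
  unfold mm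
  rw [lt_div_iff₀ ZZ_pos]
  linarith [ZZ_lt]

/-- the offspring distribution: mass `cc j` at `nn j` -/
noncomputable def mu : PMF ℕ :=
  ⟨Function.extend nn (fun j => ENNReal.ofReal (cc j)) 0, by
    have h1 : HasSum (fun j => ENNReal.ofReal (cc j)) 1 := by
      have h2 := ENNReal.hasSum_coe.2 (NNReal.hasSum_coe.1 (show HasSum (fun j =>
        (((cc j).toNNReal : ℝ≥0) : ℝ)) ((1 : ℝ≥0) : ℝ) from by
          simpa [Real.coe_toNNReal _ (cc_pos _).le] using hasSum_cc))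
      simpa [ENNReal.ofReal] using h2
    exact (hasSum_extend_zero nn_strictMono.injective).2 h1⟩

lemma mu_nn (j : ℕ) : (mu (nn j)).toReal = cc j := by
  change (Function.extend nn (fun j => ENNReal.ofReal (cc j)) 0 (nn j)).toReal = cc j
  rw [nn_strictMono.injective.extend_apply, ENNReal.toReal_ofReal (cc_pos j).le]

lemma mu_of_notMem {k : ℕ} (hk : k ∉ Set.range nn) : (mu k).toReal = 0 := by
  change (Function.extend nn (fun j => ENNReal.ofReal (cc j)) 0 k).toReal = 0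
  rw [Function.extend_apply' _ _ _ (fun ⟨j, hj⟩ => hk ⟨j, hj⟩)]
  simp

lemma tsum_mu (F : ℕ → ℝ) : ∑' k, (mu k).toReal * F k = ∑' j, cc j * F (nn j) := by
  have h := nn_strictMono.injective.tsum_eq (f := fun k => (mu k).toReal * F k) (by
    intro k hk
    by_contra hcon
    exact hk (by simp [mu_of_notMem hcon]))
  rw [← h]
  exact tsum_congr fun j => by rw [mu_nn]

lemma summable_mu_iff (F : ℕ → ℝ) : Summable (fun k => (mu k).toReal * F k) ↔
    Summable (fun j => cc j * F (nn j)) := by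
  have h := nn_strictMono.injective.summable_iff (f := fun k => (mu k).toReal * F k) (by
    intro k hk
    simp [mu_of_notMem hk])
  rw [← h]
  apply summable_congr
  intro j
  simp [mu_nn]

lemma mean_mu : mean mu = mm := by
  unfold mean
  rw [tsum_mu (fun k => (k : ℝ)), tsum_cc_nn]

lemma summable_mean : Summable (fun k => (mu k).toReal * (k : ℝ)) :=
  (summable_mu_iff fun k => (k : ℝ)).2 summable_cc_nn

end sequences

section analysis

/-- `n - (1 - (1 - s) ^ n) / s` -/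
noncomputable def KK (n : ℕ) (s : ℝ) : ℝ := ∑ i ∈ Finset.range n, (1 - (1 - s) ^ i)

lemma KK_mul (n : ℕ) (s : ℝ) : s * KK n s = n * s - (1 - (1 - s) ^ n) := by
  unfold KK
  induction n with
  | zero => simp
  | succ n ih =>
    rw [Finset.sum_range_succ, mul_add, ih, pow_succ]
    push_cast
    ring

lemma KK_nonneg (n : ℕ) {s : ℝ} (h0 : 0 ≤ s) (h1 : s ≤ 1) : 0 ≤ KK n s := by
  apply Finset.sum_nonneg
  intro i _
  have := pow_le_one₀ (n := i) (by linarith : (0 : ℝ) ≤ 1 - s) (by linarith)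
  linarith

lemma KK_le (n : ℕ) {s : ℝ} (h1 : s ≤ 1) : KK n s ≤ n := by
  unfold KK
  calc ∑ i ∈ Finset.range n, (1 - (1 - s) ^ i) ≤ ∑ _i ∈ Finset.range n, (1 : ℝ) := by
        apply Finset.sum_le_sum
        intro i _
        have := pow_nonneg (by linarith : (0 : ℝ) ≤ 1 - s) i
        linarith
    _ = n := by simp

lemma KK_mono (n : ℕ) {s t : ℝ} (hst : s ≤ t) (h1 : t ≤ 1) : KK n s ≤ KK n t := by
  apply Finset.sum_le_sum
  intro i _
  have := pow_le_pow_left₀ (by linarith : (0 : ℝ) ≤ 1 - t) (by linarith : 1 - t ≤ 1 - s) i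
  linarith

lemma KK_sub_ge {n : ℕ} (hn : 2 ≤ n) {s t : ℝ} (hst : s ≤ t) (h1 : t ≤ 1) :
    t - s ≤ KK n t - KK n s := by
  unfold KK
  rw [← Finset.sum_sub_distrib]
  have h := Finset.single_le_sum (f := fun i => (1 - (1 - t) ^ i) - (1 - (1 - s) ^ i))
    (s := Finset.range n) (fun i _ => by
      have := pow_le_pow_left₀ (by linarith : (0 : ℝ) ≤ 1 - t) (by linarith : 1 - t ≤ 1 - s) i
      linarith) (Finset.mem_range.2 (by omega : 1 < n))
  refine le_trans (le_of_eq ?_) h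
  ring

/-- the function `h` -/
noncomputable def HH (s : ℝ) : ℝ := ∑' j, cc j * KK (nn j) s

lemma summable_HH {s : ℝ} (h0 : 0 ≤ s) (h1 : s ≤ 1) :
    Summable (fun j => cc j * KK (nn j) s) := by
  apply Summable.of_nonneg_of_le _ _ summable_cc_nn
  · intro j
    exact mul_nonneg (cc_pos j).le (KK_nonneg _ h0 h1)
  · intro j
    exact mul_le_mul_of_nonneg_left (KK_le _ h1) (cc_pos j).le

lemma HH_zero : HH 0 = 0 := by
  unfold HH KK
  simp

lemma HH_sub_ge {s t : ℝ} (h0 : 0 ≤ s) (hst : s ≤ t) (h1 : t ≤ 1) :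
    cc 1 * (t - s) ≤ HH t - HH s := by
  unfold HH
  rw [← (summable_HH (h0.trans hst) h1).tsum_sub (summable_HH h0 (hst.trans h1))]
  have hsum := (summable_HH (h0.trans hst) h1).sub (summable_HH h0 (hst.trans h1))
  have h := hsum.sum_le_tsum {1} fun j _ => by
    have := mul_le_mul_of_nonneg_left (KK_mono (nn j) hst h1) (cc_pos j).le
    linarith
  simp only [Finset.sum_singleton] at h
  refine le_trans ?_ h
  have h2 : 2 ≤ nn 1 := by rw [nn_succ, nn_zero]; norm_num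
  have := mul_le_mul_of_nonneg_left (KK_sub_ge h2 hst h1) (cc_pos 1).le
  linarith

lemma HH_strictMono : StrictMonoOn HH (Set.Icc 0 1) := by
  intro s hs t ht hst
  have h := HH_sub_ge hs.1 hst.le ht.2
  have := mul_pos (cc_pos 1) (sub_pos.2 hst)
  linarith

lemma HH_continuous : ContinuousOn HH (Set.Icc 0 1) := by
  unfold HH
  apply continuousOn_tsum (u := fun j => cc j * nn j) _ summable_cc_nn
  · intro j s hs
    rw [Real.norm_eq_abs, abs_of_nonneg (mul_nonneg (cc_pos j).le (KK_nonneg _ hs.1 hs.2))]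
    exact mul_le_mul_of_nonneg_left (KK_le _ hs.2) (cc_pos j).le
  · intro j
    unfold KK
    fun_prop

lemma gf_eq {s : ℝ} (h0 : 0 ≤ s) (h1 : s ≤ 1) : gf mu (1 - s) = 1 - s * (mm - HH s) := by
  unfold gf HH
  rw [tsum_mu (fun k => (1 - s) ^ k)]
  have h2 : ∀ j, cc j * (1 - s) ^ nn j = cc j - s * (cc j * nn j) + s * (cc j * KK (nn j) s) := by
    intro j
    have := KK_mul (nn j) s
    have h3 : (1 - s) ^ nn j = 1 - nn j * s + s * KK (nn j) s := by linarith
    rw [h3]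
    ring
  rw [tsum_congr h2]
  have hs1 : Summable (fun j => cc j - s * (cc j * nn j)) :=
    summable_cc.sub (summable_cc_nn.mul_left s)
  rw [hs1.tsum_add ((summable_HH h0 h1).mul_left s),
    summable_cc.tsum_sub (summable_cc_nn.mul_left s), tsum_mul_left, tsum_mul_left,
    hasSum_cc.tsum_eq, tsum_cc_nn]
  ring

lemma summable_mu_pow {z : ℝ} (h0 : 0 ≤ z) (h1 : z ≤ 1) :
    Summable (fun k => (mu k).toReal * z ^ k) := by
  rw [summable_mu_iff fun k => z ^ k]
  apply Summable.of_nonneg_of_le _ _ summable_cc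
  · intro j
    exact mul_nonneg (cc_pos j).le (pow_nonneg h0 _)
  · intro j
    exact mul_le_of_le_one_right (cc_pos j).le (pow_le_one₀ h0 h1)

lemma gf_mono {z w : ℝ} (h0 : 0 ≤ z) (hzw : z ≤ w) (h1 : w ≤ 1) : gf mu z ≤ gf mu w := by
  unfold gf
  apply Summable.tsum_le_tsum _ (summable_mu_pow h0 (hzw.trans h1))
    (summable_mu_pow (h0.trans hzw) h1)
  intro k
  exact mul_le_mul_of_nonneg_left (pow_le_pow_left₀ h0 hzw k) ENNReal.toReal_nonneg

lemma gf_nonneg {z : ℝ} (h0 : 0 ≤ z) : 0 ≤ gf mu z :=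
  tsum_nonneg fun k => mul_nonneg ENNReal.toReal_nonneg (pow_nonneg h0 k)

lemma gf_continuous : ContinuousOn (gf mu) (Set.Icc 0 1) := by
  have h : ∀ z ∈ Set.Icc (0 : ℝ) 1, gf mu z = 1 - (1 - z) * (mm - HH (1 - z)) := by
    intro z hz
    have := gf_eq (s := 1 - z) (by linarith [hz.2]) (by linarith [hz.1])
    rwa [sub_sub_cancel] at this
  refine ContinuousOn.congr ?_ h
  have h2 : ContinuousOn (fun z : ℝ => HH (1 - z)) (Set.Icc 0 1) :=
    HH_continuous.comp (by fun_prop) fun z hz => ⟨by linarith [hz.2], by linarith [hz.1]⟩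
  fun_prop

/-- **Identification of the annealed survival function.** -/
lemma annealed_eq {s p : ℝ} (hs0 : 0 < s) (hs1 : s ≤ 1) (hp0 : 0 < p) (hp1 : p ≤ 1)
    (h : p * (mm - HH s) = 1) : p * annealed mu p = s := by
  set g := s / p with hg
  have hpg : p * g = s := by rw [hg]; field_simp
  have hgs : g = s * (mm - HH s) := by
    rw [hg, div_eq_iff hp0.ne', mul_assoc, mul_comm (mm - HH s), h, mul_one]
  have hfix : g = 1 - gf mu (1 - p * g) := by
    rw [hpg, gf_eq hs0.le hs1, ← hgs]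
    ring
  have hg0 : 0 < g := div_pos hs0 hp0
  have hg1 : g ≤ 1 := by
    rw [hfix, hpg]
    linarith [gf_nonneg (z := 1 - s) (by linarith)]
  have hth : ∀ n, g ≤ th mu p n := by
    intro n
    induction n with
    | zero => rw [th_zero]; exact hg1
    | succ n ih =>
      rw [th_succ mu hp0.le hp1, hfix]
      have h1 := th_mem mu hp0.le hp1 n
      have h2 : gf mu (1 - p * th mu p n) ≤ gf mu (1 - p * g) := by
        apply gf_mono
        · nlinarith
        · have := mul_le_mul_of_nonneg_left ih hp0.le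
          linarith
        · rw [hpg]; linarith
      linarith
  have hlim := tendsto_th mu ⟨p, hp0.le, hp1⟩
  simp only at hlim
  set θ := annealed mu p with hθ
  have hθg : g ≤ θ := ge_of_tendsto' hlim hth
  have hθ1 : θ ≤ 1 := le_of_tendsto' hlim fun n => (th_mem mu hp0.le hp1 n).2
  have hmem : ∀ x, 0 ≤ x → x ≤ 1 → 1 - p * x ∈ Set.Icc (0 : ℝ) 1 := by
    intro x hx0 hx1
    constructor
    · nlinarith
    · nlinarith [mul_nonneg hp0.le hx0]
  have hθfix : θ = 1 - gf mu (1 - p * θ) := by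
    have h1 : Tendsto (fun n => th mu p (n + 1)) atTop (𝓝 θ) := hlim.comp (tendsto_add_atTop_nat 1)
    have h2 : Tendsto (fun n => 1 - gf mu (1 - p * th mu p n)) atTop
        (𝓝 (1 - gf mu (1 - p * θ))) := by
      apply tendsto_const_nhds.sub
      have h3 := gf_continuous (1 - p * θ) (hmem θ (hg0.le.trans hθg) hθ1)
      refine h3.tendsto.comp (tendsto_nhdsWithin_iff.2 ⟨?_, Eventually.of_forall fun n => ?_⟩)
      · exact tendsto_const_nhds.sub (hlim.const_mul p)
      · have := th_mem mu hp0.le hp1 n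
        exact hmem _ this.1 this.2
    have h3 : ∀ n, th mu p (n + 1) = 1 - gf mu (1 - p * th mu p n) := th_succ mu hp0.le hp1
    simp only [h3] at h1
    exact tendsto_nhds_unique h1 h2
  set t := p * θ with ht
  have ht0 : 0 < t := mul_pos hp0 (hg0.trans_le hθg)
  have ht1 : t ≤ 1 := by rw [ht]; nlinarith
  have h4 : θ = t * (mm - HH t) := by
    rw [hθfix, gf_eq ht0.le ht1]
    ring
  have h5 : p * (mm - HH t) = 1 := by
    have h6 : θ * (p * (mm - HH t)) = θ * 1 := by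
      rw [mul_one]
      calc θ * (p * (mm - HH t)) = (p * θ) * (mm - HH t) := by ring
        _ = θ := h4.symm
    exact mul_left_cancel₀ (hg0.trans_le hθg).ne' h6
  have h7 : HH t = HH s := by
    have h8 : p * (mm - HH t) = p * (mm - HH s) := h5.trans h.symm
    have := mul_left_cancel₀ hp0.ne' h8
    linarith
  exact HH_strictMono.injOn ⟨ht0.le, ht1⟩ ⟨hs0.le, hs1⟩ h7

/-! ### Lower bound for `HH` -/

lemma KK_half {n : ℕ} {s : ℝ} (hs0 : 0 < s) (hs1 : s ≤ 1) (hn : 2 ≤ n * s) :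
    (n : ℝ) / 2 ≤ KK n s := by
  have h1 := KK_mul n s
  have h2 := pow_nonneg (by linarith : (0 : ℝ) ≤ 1 - s) n
  have h3 : s * ((n : ℝ) / 2) ≤ s * KK n s := by
    rw [h1]
    nlinarith
  exact le_of_mul_le_mul_left h3 hs0

lemma HH_ge {s : ℝ} (hs0 : 0 < s) (hs1 : s ≤ 1) {j : ℕ} (hj : 2 ≤ nn j * s) :
    (2⁻¹) ^ (j + 2) ≤ HH s := by
  unfold HH
  have h := (summable_HH hs0.le hs1).sum_le_tsum {j} fun i _ =>
    mul_nonneg (cc_pos i).le (KK_nonneg _ hs0.le hs1)
  simp only [Finset.sum_singleton] at h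
  refine le_trans ?_ h
  have h1 := mul_le_mul_of_nonneg_left (KK_half hs0 hs1 hj) (cc_pos j).le
  refine le_trans ?_ h1
  rw [← mul_div_assoc, cc_nn, div_div, le_div_iff₀ (by have := ZZ_pos; positivity), pow_add]
  have h2 : ZZ ≤ 2 := ZZ_lt.le
  have h3 : (0 : ℝ) ≤ (2⁻¹) ^ j := by positivity
  nlinarith

lemma exists_scale {s : ℝ} (hs0 : 0 < s) (hs1 : s ≤ 1) :
    ∃ j, 2 ≤ nn (j + 1) * s ∧ nn j * s < 2 := by
  have hex : ∃ j, 2 ≤ nn j * s := by
    obtain ⟨k, hk⟩ := pow_unbounded_of_one_lt (2 / s) (by norm_num : (1 : ℝ) < 128)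
    refine ⟨k, ?_⟩
    have h1 : (128 : ℝ) ^ k ≤ nn k := by exact_mod_cast nn_ge k
    have h2 : 2 / s ≤ nn k := hk.le.trans h1
    rwa [div_le_iff₀ hs0] at h2
  classical
  have hmin := Nat.find_spec hex
  have hne : Nat.find hex ≠ 0 := by
    intro h
    rw [h, nn_zero] at hmin
    push_cast at hmin
    linarith
  obtain ⟨j, hj⟩ := Nat.exists_eq_succ_of_ne_zero hne
  refine ⟨j, ?_, ?_⟩
  · rw [← Nat.succ_eq_add_one, ← hj]; exact hmin
  · have := Nat.find_min hex (m := j) (by omega)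
    exact not_le.1 this

/-- `n_j` grows faster than any exponential. -/
lemma nn_growth (B : ℝ) : ∀ᶠ j : ℕ in atTop, B * 64 ^ j ≤ nn j := by
  have h1 : Tendsto (fun j : ℕ => (2 : ℝ) ^ j) atTop atTop :=
    tendsto_pow_atTop_atTop_of_one_lt (by norm_num)
  filter_upwards [h1.eventually_ge_atTop B] with j hj
  have h2 : (128 : ℝ) ^ j ≤ nn j := by exact_mod_cast nn_ge j
  calc B * 64 ^ j ≤ 2 ^ j * 64 ^ j := mul_le_mul_of_nonneg_right hj (by positivity)
    _ = 128 ^ j := by rw [← mul_pow]; norm_num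
    _ ≤ nn j := h2

/-- `HH s ^ 2 / s` tends to infinity as `s` tends to `0`. -/
lemma HH_sq (B : ℝ) (hB : 0 < B) : ∃ η > 0, η ≤ 1 ∧ ∀ s, 0 < s → s < η → B * s ≤ HH s ^ 2 := by
  obtain ⟨J, hJ⟩ := eventually_atTop.1 (nn_growth (128 * B))
  refine ⟨min 1 (2 / nn J), ?_, min_le_left _ _, ?_⟩
  · have : (0 : ℝ) < nn J := by exact_mod_cast nn_pos J
    positivity
  intro s hs0 hs
  have hs1 : s ≤ 1 := (hs.trans_le (min_le_left _ _)).le
  have hsJ : s < 2 / nn J := hs.trans_le (min_le_right _ _)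
  obtain ⟨j, hj1, hj2⟩ := exists_scale hs0 hs1
  have hjJ : J ≤ j := by
    by_contra hcon
    have h1 : nn (j + 1) ≤ nn J := nn_strictMono.monotone (by omega)
    have h2 : (nn (j + 1) : ℝ) ≤ nn J := by exact_mod_cast h1
    have h3 : (0 : ℝ) < nn J := by exact_mod_cast nn_pos J
    rw [lt_div_iff₀ h3] at hsJ
    nlinarith
  have h1 := HH_ge hs0 hs1 hj1
  have h2 := hJ j hjJ
  have h3 : ((2⁻¹ : ℝ) ^ (j + 1 + 2)) ^ 2 ≤ HH s ^ 2 := pow_le_pow_left₀ (by positivity) h1 2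
  refine le_trans ?_ h3
  have h4 : ((2⁻¹ : ℝ) ^ (j + 1 + 2)) ^ 2 = 1 / (64 * 4 ^ j) := by
    rw [← pow_mul, show (j + 1 + 2) * 2 = 6 + 2 * j by ring, pow_add, pow_mul, one_div, mul_inv,
      ← inv_pow]
    norm_num
  rw [h4, le_div_iff₀ (by positivity)]
  have h5 : (4 : ℝ) ^ j ≤ 64 ^ j := pow_le_pow_left₀ (by norm_num) (by norm_num) j
  have h6 : 128 * B * 4 ^ j * s ≤ 2 := by
    calc 128 * B * 4 ^ j * s ≤ 128 * B * 64 ^ j * s := by
          apply mul_le_mul_of_nonneg_right _ hs0.le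
          exact mul_le_mul_of_nonneg_left h5 (by positivity)
      _ ≤ nn j * s := mul_le_mul_of_nonneg_right h2 hs0.le
      _ ≤ 2 := hj2.le
  linarith

/-! ### The expansion -/

/-- the critical value -/
noncomputable def pc : ℝ := 1 / mm

lemma mm_pos : 0 < mm := lt_trans one_pos mm_gt

lemma pc_pos : 0 < pc := by unfold pc; exact one_div_pos.2 mm_pos

lemma pc_lt : pc < 1 := by
  unfold pc
  rw [div_lt_one mm_pos]
  exact mm_gt

/-- for `p` slightly above `pc` the point `s = p g(p)` -/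
lemma exists_point {η : ℝ} (hη0 : 0 < η) (hη1 : η ≤ 1) {p : ℝ} (hp : pc < p) (hp1 : p ≤ 1)
    (hsmall : mm - 1 / p < HH η) :
    ∃ s, 0 < s ∧ s < η ∧ HH s = mm - 1 / p ∧ p * annealed mu p = s := by
  have hp0 : 0 < p := pc_pos.trans hp
  have hpos : 0 < mm - 1 / p := by
    have h1 : 1 / p < mm := by
      rw [div_lt_iff₀ hp0]
      unfold pc at hp
      rw [div_lt_iff₀ mm_pos] at hp
      linarith
    linarith
  have hcont : ContinuousOn HH (Set.Icc 0 η) :=
    HH_continuous.mono (Set.Icc_subset_Icc_right hη1)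
  have h1 : mm - 1 / p ∈ Set.Ioo (HH 0) (HH η) := by
    rw [HH_zero]
    exact ⟨hpos, hsmall⟩
  obtain ⟨s, hs, hs2⟩ := intermediate_value_Ioo hη0.le hcont h1
  refine ⟨s, hs.1, hs.2, hs2, ?_⟩
  apply annealed_eq hs.1 (hs.2.le.trans hη1) hp0 hp1
  rw [hs2, sub_sub_cancel, mul_one_div, div_self hp0.ne']

lemma expansion : HasExpansion (annealed mu) pc 2 := by
  refine ⟨fun _ => 0, ?_⟩
  simp only [zero_mul, Finset.sum_const_zero, sub_zero]
  rw [Asymptotics.isLittleO_iff]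
  intro c hc
  -- choose the constant `B`
  obtain ⟨η, hη0, hη1, hη⟩ := HH_sq (mm ^ 5 / c) (by have := mm_pos; positivity)
  have hHη : 0 < HH η := by
    have := HH_strictMono ⟨le_rfl, zero_le_one⟩ ⟨hη0.le, hη1⟩ hη0
    rwa [HH_zero] at this
  have h1 : ∀ᶠ ε : ℝ in 𝓝[>] 0, mm ^ 2 * ε < HH η := by
    have h2 : Tendsto (fun ε : ℝ => mm ^ 2 * ε) (𝓝[>] 0) (𝓝 (mm ^ 2 * 0)) :=
      (tendsto_id.mono_left nhdsWithin_le_nhds).const_mul _
    rw [mul_zero] at h2
    exact h2.eventually (gt_mem_nhds hHη)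
  have h2 : ∀ᶠ ε : ℝ in 𝓝[>] 0, ε < 1 - pc := by
    have h3 : Tendsto (fun ε : ℝ => ε) (𝓝[>] 0) (𝓝 0) := tendsto_id.mono_left nhdsWithin_le_nhds
    exact h3.eventually (gt_mem_nhds (by linarith [pc_lt]))
  filter_upwards [h1, h2, self_mem_nhdsWithin] with ε h3 h4 hε
  rw [Set.mem_Ioi] at hε
  set p := pc + ε with hp
  have hp0 : 0 < p := by linarith [pc_pos]
  have hpc : pc * mm = 1 := by unfold pc; field_simp [mm_pos.ne']
  have hu : mm - 1 / p ≤ mm ^ 2 * ε := by
    have h5 : mm - 1 / p = mm * ε / p := by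
      rw [eq_div_iff hp0.ne', sub_mul, one_div, inv_mul_cancel₀ hp0.ne', hp]
      linear_combination hpc
    rw [h5, div_le_iff₀ hp0]
    have h6 : 1 ≤ mm * p := by
      rw [hp]
      nlinarith [mul_pos mm_pos hε]
    have h7 := mul_le_mul_of_nonneg_left h6 (mul_pos mm_pos hε).le
    linarith
  obtain ⟨s, hs0, hs1, hs2, hs3⟩ := exists_point hη0 hη1 (p := p) (by linarith) (by linarith)
    (hu.trans_lt h3)
  have hsB := hη s hs0 hs1
  have hann : annealed mu p = s / p := by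
    rw [eq_div_iff hp0.ne', mul_comm]
    exact hs3
  rw [hann, Real.norm_of_nonneg (by positivity), Real.norm_of_nonneg (by positivity)]
  have h8 : HH s ^ 2 ≤ (mm ^ 2 * ε) ^ 2 := by
    rw [hs2]
    apply pow_le_pow_left₀ _ hu
    rw [← hs2]
    have := HH_strictMono ⟨le_rfl, zero_le_one⟩ ⟨hs0.le, hs1.le.trans hη1⟩ hs0
    rw [HH_zero] at this
    exact this.le
  have h9 : mm ^ 5 / c * s ≤ mm ^ 4 * ε ^ 2 := by
    calc mm ^ 5 / c * s ≤ HH s ^ 2 := hsB
      _ ≤ (mm ^ 2 * ε) ^ 2 := h8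
      _ = mm ^ 4 * ε ^ 2 := by ring
  have h10 : mm * s ≤ c * ε ^ 2 := by
    have h11 : mm ^ 4 * (mm * s) ≤ mm ^ 4 * (c * ε ^ 2) := by
      calc mm ^ 4 * (mm * s) = c * (mm ^ 5 / c * s) := by field_simp
        _ ≤ c * (mm ^ 4 * ε ^ 2) := mul_le_mul_of_nonneg_left h9 hc.le
        _ = mm ^ 4 * (c * ε ^ 2) := by ring
    exact le_of_mul_le_mul_left h11 (by have := mm_pos; positivity)
  rw [div_le_iff₀ hp0]
  have h12 : 1 ≤ mm * p := by
    rw [hp]
    nlinarith [mul_pos mm_pos hε]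
  calc s ≤ s * (mm * p) := le_mul_of_one_le_right hs0.le h12
    _ = (mm * s) * p := by ring
    _ ≤ c * ε ^ 2 * p := mul_le_mul_of_nonneg_right h10 hp0.le

/-! ### The three point estimate -/

lemma pow_diff_le {s : ℝ} (hs0 : 0 ≤ s) (hs1 : 2 * s ≤ 1) (i : ℕ) :
    (1 - s) ^ i - (1 - 2 * s) ^ i ≤ i * s := by
  induction i with
  | zero => simp
  | succ i ih =>
    have h1 : (1 - s) ^ (i + 1) - (1 - 2 * s) ^ (i + 1) =
        (1 - s) * ((1 - s) ^ i - (1 - 2 * s) ^ i) + s * (1 - 2 * s) ^ i := by ring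
    rw [h1]
    have h2 : (1 - 2 * s) ^ i ≤ 1 := pow_le_one₀ (by linarith) (by linarith)
    have h3 : (1 - 2 * s) ^ i ≤ (1 - s) ^ i := pow_le_pow_left₀ (by linarith) (by linarith) i
    push_cast
    have h4 : (1 - s) * ((1 - s) ^ i - (1 - 2 * s) ^ i) ≤ 1 * (i * s) :=
      mul_le_mul (by linarith) ih (by linarith) zero_le_one
    nlinarith

lemma KK_incr_le (n : ℕ) {s : ℝ} (hs0 : 0 ≤ s) (hs1 : 2 * s ≤ 1) :
    KK n (2 * s) - KK n s ≤ n ^ 2 * s := by
  unfold KK
  rw [← Finset.sum_sub_distrib]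
  calc ∑ i ∈ Finset.range n, ((1 - (1 - 2 * s) ^ i) - (1 - (1 - s) ^ i))
      ≤ ∑ _i ∈ Finset.range n, ((n : ℝ) * s) := by
        apply Finset.sum_le_sum
        intro i hi
        have h1 := pow_diff_le hs0 hs1 i
        have h2 : (i : ℝ) ≤ n := by exact_mod_cast (Finset.mem_range.1 hi).le
        have h3 := mul_le_mul_of_nonneg_right h2 hs0
        linarith
    _ = n ^ 2 * s := by
        rw [Finset.sum_const, Finset.card_range, nsmul_eq_mul]
        ring

lemma KK_incr_le' (n : ℕ) {s : ℝ} (hs0 : 0 < s) (hs1 : 2 * s ≤ 1) :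
    KK n (2 * s) - KK n s ≤ 1 / s := by
  rw [le_div_iff₀ hs0]
  have h1 := KK_mul n s
  have h2 := KK_mul n (2 * s)
  have h3 : (1 - 2 * s) ^ n ≤ 1 := pow_le_one₀ (by linarith) (by linarith)
  have h4 : 0 ≤ (1 - s) ^ n := pow_nonneg (by linarith) n
  nlinarith

lemma KK_second_nonneg (n : ℕ) {s : ℝ} (hs0 : 0 ≤ s) (hs1 : 3 * s ≤ 1) :
    0 ≤ 2 * KK n (2 * s) - KK n s - KK n (3 * s) := by
  unfold KK
  rw [Finset.mul_sum, ← Finset.sum_sub_distrib, ← Finset.sum_sub_distrib]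
  apply Finset.sum_nonneg
  intro i _
  have h := (convexOn_pow i).2 (show (1 - 3 * s) ∈ Set.Ici (0 : ℝ) by rw [Set.mem_Ici]; linarith)
    (show (1 - s) ∈ Set.Ici (0 : ℝ) by rw [Set.mem_Ici]; linarith)
    (by norm_num : (0 : ℝ) ≤ 1 / 2) (by norm_num : (0 : ℝ) ≤ 1 / 2) (by norm_num)
  simp only [smul_eq_mul] at h
  have h2 : 1 / 2 * (1 - 3 * s) + 1 / 2 * (1 - s) = 1 - 2 * s := by ring
  rw [h2] at h
  linarith

lemma KK_second_ge {n : ℕ} {s : ℝ} (hs0 : 0 < s) (hs1 : 3 * s ≤ 1) (hn : 7 ≤ n * s) :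
    1 / (6 * s) ≤ 2 * KK n (2 * s) - KK n s - KK n (3 * s) := by
  rw [div_le_iff₀ (by positivity)]
  have h1 := KK_mul n s
  have h2 := KK_mul n (2 * s)
  have h3 := KK_mul n (3 * s)
  have h4 : 0 ≤ (1 - 2 * s) ^ n := pow_nonneg (by linarith) n
  have h5 : (1 - 3 * s) ^ n ≤ (1 - s) ^ n := pow_le_pow_left₀ (by linarith) (by linarith) n
  have h6 : (1 - s) ^ n ≤ 1 / 8 := by
    have h7 : (1 + n * s) * (1 - s) ^ n ≤ 1 := by
      calc (1 + n * s) * (1 - s) ^ n ≤ (1 + s) ^ n * (1 - s) ^ n := by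
            apply mul_le_mul_of_nonneg_right _ (pow_nonneg (by linarith) _)
            exact one_add_mul_le_pow (by linarith) n
        _ = (1 - s ^ 2) ^ n := by rw [← mul_pow]; ring_nf
        _ ≤ 1 := pow_le_one₀ (by nlinarith) (by nlinarith)
    have h8 : 0 ≤ (1 - s) ^ n := pow_nonneg (by linarith) n
    nlinarith
  nlinarith

lemma HH_second_ge {s : ℝ} (hs0 : 0 < s) (hs1 : 3 * s ≤ 1) {j : ℕ} (hn : 7 ≤ nn j * s) :
    cc j / (6 * s) ≤ 2 * HH (2 * s) - HH s - HH (3 * s) := by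
  unfold HH
  have e1 := summable_HH hs0.le (by linarith : s ≤ 1)
  have e2 := summable_HH (by linarith : (0 : ℝ) ≤ 2 * s) (by linarith : 2 * s ≤ 1)
  have e3 := summable_HH (by linarith : (0 : ℝ) ≤ 3 * s) hs1
  rw [← tsum_mul_left, ← (e2.mul_left 2).tsum_sub e1, ← ((e2.mul_left 2).sub e1).tsum_sub e3]
  have hsum := ((e2.mul_left 2).sub e1).sub e3
  have h := hsum.sum_le_tsum {j} fun i _ => by
    have := mul_nonneg (cc_pos i).le (KK_second_nonneg (nn i) hs0.le hs1)
    linarith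
  simp only [Finset.sum_singleton] at h
  refine le_trans ?_ h
  have h1 := mul_le_mul_of_nonneg_left (KK_second_ge hs0 hs1 hn) (cc_pos j).le
  have h2 : cc j * (1 / (6 * s)) = cc j / (6 * s) := by ring
  linarith

lemma cc_le_bb (j : ℕ) : cc j ≤ bb j := div_le_self (bb_pos j).le ZZ_ge

lemma HH_incr_le {s : ℝ} (hs0 : 0 < s) (hs1 : 2 * s ≤ 1) (j : ℕ) :
    HH (2 * s) - HH s ≤ 2 * nn j * s + 2 / (nn (j + 1) * s) := by
  have e1 := summable_HH hs0.le (by linarith : s ≤ 1)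
  have e2 := summable_HH (by linarith : (0 : ℝ) ≤ 2 * s) hs1
  have hsum := e2.sub e1
  have h0 : HH (2 * s) - HH s = ∑' i, (cc i * KK (nn i) (2 * s) - cc i * KK (nn i) s) := by
    unfold HH
    rw [e2.tsum_sub e1]
  rw [h0, ← hsum.sum_add_tsum_nat_add (j + 1)]
  apply add_le_add
  · calc ∑ i ∈ Finset.range (j + 1), (cc i * KK (nn i) (2 * s) - cc i * KK (nn i) s)
        ≤ ∑ i ∈ Finset.range (j + 1), ((2⁻¹ : ℝ) ^ i * (nn j * s)) := by
          apply Finset.sum_le_sum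
          intro i hi
          rw [Finset.mem_range] at hi
          have h1 := mul_le_mul_of_nonneg_left (KK_incr_le (nn i) hs0.le hs1) (cc_pos i).le
          have h2 : cc i * ((nn i : ℝ) ^ 2 * s) = cc i * nn i * (nn i * s) := by ring
          have h3 : cc i * nn i ≤ (2⁻¹) ^ i := by
            rw [cc_nn]
            exact div_le_self (by positivity) ZZ_ge
          have h4 : (nn i : ℝ) ≤ nn j := by
            exact_mod_cast nn_strictMono.monotone (by omega : i ≤ j)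
          have h5 : (nn i : ℝ) * s ≤ nn j * s := mul_le_mul_of_nonneg_right h4 hs0.le
          have h6 : cc i * nn i * (nn i * s) ≤ (2⁻¹) ^ i * (nn j * s) :=
            mul_le_mul h3 h5 (by positivity) (by positivity)
          linarith
      _ = (∑ i ∈ Finset.range (j + 1), (2⁻¹ : ℝ) ^ i) * (nn j * s) := by rw [Finset.sum_mul]
      _ ≤ 2 * (nn j * s) := by
          apply mul_le_mul_of_nonneg_right _ (by positivity)
          exact (summable_half.sum_le_tsum _ fun i _ => by positivity).trans_eq tsum_half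
      _ = 2 * nn j * s := by ring
  · have hb : ∀ i : ℕ, cc (i + (j + 1)) * KK (nn (i + (j + 1))) (2 * s) -
        cc (i + (j + 1)) * KK (nn (i + (j + 1))) s ≤ (2⁻¹ : ℝ) ^ i * (1 / (nn (j + 1) * s)) := by
      intro i
      have h1 := mul_le_mul_of_nonneg_left (KK_incr_le' (nn (i + (j + 1))) hs0 hs1)
        (cc_pos (i + (j + 1))).le
      have hn1 : (0 : ℝ) < nn (j + 1) := by exact_mod_cast nn_pos (j + 1)
      have h2 : cc (i + (j + 1)) ≤ (2⁻¹) ^ i / nn (j + 1) := by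
        refine (cc_le_bb _).trans ?_
        unfold bb
        have h4 : (nn (j + 1) : ℝ) ≤ nn (i + (j + 1)) := by
          exact_mod_cast nn_strictMono.monotone (by omega : j + 1 ≤ i + (j + 1))
        apply div_le_div₀ (by positivity) _ hn1 h4
        exact pow_le_pow_of_le_one (by norm_num) (by norm_num) (by omega)
      have h3 : cc (i + (j + 1)) * (1 / s) ≤ (2⁻¹) ^ i / nn (j + 1) * (1 / s) :=
        mul_le_mul_of_nonneg_right h2 (by positivity)
      have h5 : (2⁻¹ : ℝ) ^ i / nn (j + 1) * (1 / s) = (2⁻¹ : ℝ) ^ i * (1 / (nn (j + 1) * s)) := by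
        field_simp
      linarith
    have hs1' : Summable (fun i : ℕ => (2⁻¹ : ℝ) ^ i * (1 / (nn (j + 1) * s))) :=
      summable_half.mul_right _
    have hs2 := (summable_nat_add_iff (j + 1)).2 hsum
    refine (Summable.tsum_le_tsum hb hs2 hs1').trans ?_
    rw [tsum_mul_right, tsum_half]
    apply le_of_eq
    ring

/-! ### Functions of class `C ^ 2` -/

lemma second_difference_bound {f : ℝ → ℝ} {a δ : ℝ} (hδ : 0 < δ)
    (hf : ContDiffOn ℝ 2 f (Set.Ico a (a + δ))) :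
    ∃ M, 0 ≤ M ∧ ∀ x y z, a < x → x < y → y < z → z < a + δ / 2 →
      (f z - f y) / (z - y) - (f y - f x) / (y - x) ≤ M * (z - x) := by
  set S := Set.Ico a (a + δ) with hS
  have huniq : UniqueDiffOn ℝ S := uniqueDiffOn_Ico a (a + δ)
  set g := derivWithin f S with hg
  have hf1 : DifferentiableOn ℝ f S ∧ ContDiffOn ℝ 1 g S := by
    have h := (contDiffOn_succ_iff_derivWithin (n := 1) huniq).1 (by exact_mod_cast hf)
    exact ⟨h.1, h.2.2⟩
  have hg1 : DifferentiableOn ℝ g S ∧ ContinuousOn (derivWithin g S) S := by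
    have h := (contDiffOn_succ_iff_derivWithin (n := 0) huniq).1 (by simpa using hf1.2)
    exact ⟨h.1, h.2.2.continuousOn⟩
  have hsub : Set.Icc a (a + δ / 2) ⊆ S := fun x hx => ⟨hx.1, by linarith [hx.2]⟩
  obtain ⟨M, hM⟩ := (isCompact_Icc (a := a) (b := a + δ / 2)).exists_bound_of_continuousOn
    (hg1.2.mono hsub)
  refine ⟨|M|, abs_nonneg _, fun x y z hax hxy hyz hz => ?_⟩
  have hnhds : ∀ w, a < w → w < a + δ / 2 → S ∈ 𝓝 w := fun w hw1 hw2 =>
    Ico_mem_nhds hw1 (by linarith)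
  have hfd : ∀ w, a < w → w < a + δ / 2 → DifferentiableAt ℝ f w := fun w hw1 hw2 =>
    (hf1.1 w ⟨hw1.le, by linarith⟩).differentiableAt (hnhds w hw1 hw2)
  have hgd : ∀ w, a < w → w < a + δ / 2 → DifferentiableAt ℝ g w := fun w hw1 hw2 =>
    (hg1.1 w ⟨hw1.le, by linarith⟩).differentiableAt (hnhds w hw1 hw2)
  obtain ⟨ξ, hξ, hξ2⟩ := exists_deriv_eq_slope f hxy
    (fun w hw => (hfd w (by linarith [hw.1]) (by linarith [hw.2])).continuousAt.continuousWithinAt)
    (fun w hw => (hfd w (by linarith [hw.1]) (by linarith [hw.2])).differentiableWithinAt)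
  obtain ⟨η, hη, hη2⟩ := exists_deriv_eq_slope f hyz
    (fun w hw => (hfd w (by linarith [hw.1]) (by linarith [hw.2])).continuousAt.continuousWithinAt)
    (fun w hw => (hfd w (by linarith [hw.1]) (by linarith [hw.2])).differentiableWithinAt)
  have hξη : ξ < η := hξ.2.trans hη.1
  obtain ⟨w, hw, hw2⟩ := exists_deriv_eq_slope g hξη
    (fun w hw => (hgd w (by linarith [hw.1, hξ.1]) (by linarith [hw.2, hη.2])).continuousAt.continuousWithinAt)
    (fun w hw => (hgd w (by linarith [hw.1, hξ.1]) (by linarith [hw.2, hη.2])).differentiableWithinAt)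
  have e1 : g ξ = deriv f ξ :=
    derivWithin_of_mem_nhds (hnhds ξ (by linarith [hξ.1]) (by linarith [hη.2]))
  have e2 : g η = deriv f η :=
    derivWithin_of_mem_nhds (hnhds η (by linarith [hξ.1]) (by linarith [hη.2]))
  have e3 : derivWithin g S w = deriv g w :=
    derivWithin_of_mem_nhds (hnhds w (by linarith [hξ.1, hw.1]) (by linarith [hη.2, hw.2]))
  have h1 : deriv g w ≤ |M| := by
    rw [← e3]
    have := hM w ⟨by linarith [hξ.1, hw.1], by linarith [hη.2, hw.2]⟩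
    exact (le_abs_self _).trans (this.trans (le_abs_self M))
  rw [hw2, e1, e2, div_le_iff₀ (by linarith)] at h1
  rw [← hξ2, ← hη2]
  refine h1.trans ?_
  apply mul_le_mul_of_nonneg_left _ (abs_nonneg _)
  linarith [hξ.1, hη.2]

lemma cc_succ_ge (j : ℕ) : 1 / (512 * 2 ^ j * (nn j : ℝ) ^ 8) ≤ cc (j + 1) := by
  unfold cc bb
  have hn : (0 : ℝ) < nn j := by exact_mod_cast nn_pos j
  rw [nn_succ]
  push_cast
  rw [div_div, pow_succ (2⁻¹ : ℝ) j, inv_pow, le_div_iff₀ (by have := ZZ_pos; positivity)]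
  have hZ := ZZ_lt
  rw [div_mul_eq_mul_div, one_mul, div_le_iff₀ (by positivity)]
  have h1 : ((2 : ℝ) ^ j)⁻¹ * 2⁻¹ * (512 * 2 ^ j * (nn j : ℝ) ^ 8) = 256 * (nn j : ℝ) ^ 8 := by
    field_simp
    norm_num
  rw [h1]
  have h2 : (0 : ℝ) < (nn j : ℝ) ^ 8 := by positivity
  nlinarith

lemma HH_pos {s : ℝ} (hs0 : 0 < s) (hs1 : s ≤ 1) : 0 < HH s := by
  have := HH_strictMono ⟨le_rfl, zero_le_one⟩ ⟨hs0.le, hs1⟩ hs0
  rwa [HH_zero] at this

set_option maxHeartbeats 4000000 in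
/-- The main estimate. -/
lemma key_estimate {M : ℝ} (hM : 0 ≤ M) {s p1 p2 p3 : ℝ} (hs0 : 0 < s) (hs1 : 3 * s ≤ 1)
    (hp1 : p1 * (mm - HH s) = 1) (hp2 : p2 * (mm - HH (2 * s)) = 1)
    (hp3 : p3 * (mm - HH (3 * s)) = 1) (h1 : 1 / 2 ≤ p1) (h12 : p1 < p2) (h23 : p2 < p3)
    (h3 : p3 ≤ 1)
    (hMb : (3 * s - 2 * s) / (p3 - p2) - (2 * s - s) / (p2 - p1) ≤ M * (p3 - p1)) :
    s * (2 * HH (2 * s) - HH s - HH (3 * s)) ≤
      (4 * M + 4 / cc 1) * (HH (2 * s) - HH s) ^ 3 := by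
  set a := HH (2 * s) - HH s with ha
  set b := HH (3 * s) - HH (2 * s) with hb
  have hp1pos : 0 < p1 := by linarith
  have hp2pos : 0 < p2 := by linarith
  have hp3pos : 0 < p3 := by linarith
  have e21 : p2 - p1 = p1 * p2 * a := by
    rw [ha]
    linear_combination p1 * hp2 - p2 * hp1
  have e32 : p3 - p2 = p2 * p3 * b := by
    rw [hb]
    linear_combination p2 * hp3 - p3 * hp2
  have e31 : p3 - p1 = p1 * p3 * (a + b) := by
    rw [ha, hb]
    linear_combination p1 * hp3 - p3 * hp1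
  have hacc : cc 1 * s ≤ a := by
    have h := HH_sub_ge hs0.le (by linarith : s ≤ 2 * s) (by linarith)
    have e : 2 * s - s = s := by ring
    rwa [e] at h
  have ha0 : 0 < a := lt_of_lt_of_le (mul_pos (cc_pos 1) hs0) hacc
  have hb0 : 0 < b := by
    have h := HH_sub_ge (by linarith : (0 : ℝ) ≤ 2 * s) (by linarith : 2 * s ≤ 3 * s) hs1
    have e : 3 * s - 2 * s = s := by ring
    rw [e] at h
    exact lt_of_lt_of_le (mul_pos (cc_pos 1) hs0) h
  set d := 2 * HH (2 * s) - HH s - HH (3 * s) with hd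
  have hdab : d = a - b := by rw [hd, ha, hb]; ring
  have hd0 : 0 ≤ d := by
    rw [hd]
    unfold HH
    have e1 := summable_HH hs0.le (by linarith : s ≤ 1)
    have e2 := summable_HH (by linarith : (0 : ℝ) ≤ 2 * s) (by linarith : 2 * s ≤ 1)
    have e3 := summable_HH (by linarith : (0 : ℝ) ≤ 3 * s) hs1
    rw [← tsum_mul_left, ← (e2.mul_left 2).tsum_sub e1, ← ((e2.mul_left 2).sub e1).tsum_sub e3]
    apply tsum_nonneg
    intro i
    have := mul_nonneg (cc_pos i).le (KK_second_nonneg (nn i) hs0.le hs1)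
    linarith
  have hba : b ≤ a := by linarith
  -- clear the denominators
  rw [e21, e32, e31, show 3 * s - 2 * s = s by ring, show 2 * s - s = s by ring] at hMb
  have hprod : 0 < p1 * p2 * p3 * a * b := by positivity
  have h4 := mul_le_mul_of_nonneg_right hMb hprod.le
  have h5 : (s / (p2 * p3 * b) - s / (p1 * p2 * a)) * (p1 * p2 * p3 * a * b) =
      s * (p1 * a - p3 * b) := by
    field_simp
  rw [h5] at h4
  -- right hand side
  have h6 : M * (p1 * p3 * (a + b)) * (p1 * p2 * p3 * a * b) ≤ 2 * M * a ^ 3 := by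
    have hp : (p1 * p3) * (p1 * p2 * p3) ≤ 1 := by
      have q1 : p1 * p3 ≤ 1 := mul_le_one₀ (by linarith) hp3pos.le h3
      have q2 : p1 * p2 ≤ 1 := mul_le_one₀ (by linarith) hp2pos.le (by linarith)
      have q3 : p1 * p2 * p3 ≤ 1 := mul_le_one₀ q2 hp3pos.le h3
      exact mul_le_one₀ q1 (by positivity) q3
    have hab : (a + b) * (a * b) ≤ 2 * a ^ 3 := by
      have q1 : a * b ≤ a * a := mul_le_mul_of_nonneg_left hba ha0.le
      have q2 : (a + b) * (a * b) ≤ (a + a) * (a * a) :=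
        mul_le_mul (by linarith) q1 (by positivity) (by positivity)
      calc (a + b) * (a * b) ≤ (a + a) * (a * a) := q2
        _ = 2 * a ^ 3 := by ring
    calc M * (p1 * p3 * (a + b)) * (p1 * p2 * p3 * a * b)
        = M * (((p1 * p3) * (p1 * p2 * p3)) * ((a + b) * (a * b))) := by ring
      _ ≤ M * (1 * (2 * a ^ 3)) := by
          apply mul_le_mul_of_nonneg_left _ hM
          exact mul_le_mul hp hab (by positivity) zero_le_one
      _ = 2 * M * a ^ 3 := by ring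
  -- left hand side
  have h7 : p1 * a - p3 * b = p1 * d - p1 * p3 * (a + b) * b := by
    rw [hdab]
    linear_combination (-b) * e31
  have h8 : d / 2 - 2 * a ^ 2 ≤ p1 * a - p3 * b := by
    rw [h7]
    have q1 : d / 2 ≤ p1 * d := by nlinarith
    have q2 : p1 * p3 * (a + b) * b ≤ 2 * a ^ 2 := by
      have r1 : p1 * p3 ≤ 1 := mul_le_one₀ (by linarith) hp3pos.le h3
      have r2 : (a + b) * b ≤ (a + a) * a := mul_le_mul (by linarith) hba hb0.le (by positivity)
      calc p1 * p3 * (a + b) * b = (p1 * p3) * ((a + b) * b) := by ring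
        _ ≤ 1 * ((a + a) * a) := mul_le_mul r1 r2 (by positivity) zero_le_one
        _ = 2 * a ^ 2 := by ring
    linarith
  have h9 : s * (d / 2 - 2 * a ^ 2) ≤ 2 * M * a ^ 3 :=
    (mul_le_mul_of_nonneg_left h8 hs0.le).trans (h4.trans h6)
  have h10 : s ≤ a / cc 1 := by
    rw [le_div_iff₀ (cc_pos 1)]
    linarith
  have h11 : s * a ^ 2 ≤ a / cc 1 * a ^ 2 := mul_le_mul_of_nonneg_right h10 (by positivity)
  have h12 : a / cc 1 * a ^ 2 = (1 / cc 1) * a ^ 3 := by ring
  have h13 : (4 * M + 4 / cc 1) * a ^ 3 = 2 * (2 * M * a ^ 3) + 4 * ((1 / cc 1) * a ^ 3) := by ring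
  rw [h13, ← h12]
  nlinarith

lemma not_class : ¬ IsClass (annealed mu) pc 2 := by
  rintro ⟨δ, hδ, hf⟩
  have hf2 : ContDiffOn ℝ 2 (fun p => p * annealed mu p) (Set.Ico pc (pc + δ)) :=
    contDiffOn_id.mul (by exact_mod_cast hf)
  obtain ⟨M, hM, hMb⟩ := second_difference_bound hδ hf2
  -- the points
  have hsj : Tendsto (fun j : ℕ => 3 * (1 / (nn j : ℝ) ^ 4)) atTop (𝓝 0) := by
    have h1 : Tendsto (fun j : ℕ => (nn j : ℝ)) atTop atTop :=
      tendsto_natCast_atTop_atTop.comp nn_strictMono.tendsto_atTop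
    have h2 : Tendsto (fun j : ℕ => (nn j : ℝ) ^ 4) atTop atTop :=
      (tendsto_pow_atTop (by norm_num)).comp h1
    have h3 := (h2.inv_tendsto_atTop).const_mul 3
    rw [mul_zero] at h3
    refine h3.congr fun j => ?_
    simp [one_div]
  have hHlim : Tendsto (fun j : ℕ => HH (3 * (1 / (nn j : ℝ) ^ 4))) atTop (𝓝 0) := by
    have h1 := HH_continuous 0 ⟨le_rfl, zero_le_one⟩
    unfold ContinuousWithinAt at h1
    rw [HH_zero] at h1
    refine h1.comp (tendsto_nhdsWithin_iff.2 ⟨hsj, ?_⟩)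
    filter_upwards [hsj.eventually (gt_mem_nhds zero_lt_one)] with j hj
    exact ⟨by positivity, hj.le⟩
  have hplim : Tendsto (fun j : ℕ => 1 / (mm - HH (3 * (1 / (nn j : ℝ) ^ 4)))) atTop (𝓝 pc) := by
    have h1 : Tendsto (fun j : ℕ => mm - HH (3 * (1 / (nn j : ℝ) ^ 4))) atTop (𝓝 (mm - 0)) :=
      tendsto_const_nhds.sub hHlim
    rw [sub_zero] at h1
    exact Tendsto.div tendsto_const_nhds h1 mm_pos.ne'
  have ev1 := hsj.eventually (gt_mem_nhds (by norm_num : (0 : ℝ) < 1))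
  have ev2 := hHlim.eventually (gt_mem_nhds (by linarith [mm_gt] : (0 : ℝ) < mm - 1))
  have ev3 := hplim.eventually (gt_mem_nhds (by linarith : pc < pc + δ / 2))
  have ev4 := nn_growth ((512 * 6 * 27) * (4 * M + 4 / cc 1) + 1)
  obtain ⟨j, h1, h2, h3, h4⟩ := (ev1.and (ev2.and (ev3.and ev4))).exists
  obtain ⟨s, hs⟩ : ∃ s : ℝ, s = 1 / (nn j : ℝ) ^ 4 := ⟨_, rfl⟩
  rw [← hs] at h1 h2 h3
  have hn : (0 : ℝ) < nn j := by exact_mod_cast nn_pos j
  have hn1 : (1 : ℝ) ≤ nn j := by exact_mod_cast nn_pos j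
  have hs0 : 0 < s := by rw [hs]; positivity
  have hs1 : 3 * s ≤ 1 := h1.le
  have hm1 : HH s < HH (2 * s) :=
    HH_strictMono ⟨hs0.le, by linarith⟩ ⟨by linarith, by linarith⟩ (by linarith)
  have hm2 : HH (2 * s) < HH (3 * s) :=
    HH_strictMono ⟨by linarith, by linarith⟩ ⟨by linarith, by linarith⟩ (by linarith)
  have hm0 : 0 < HH s := HH_pos hs0 (by linarith)
  have q1 : 0 < mm - HH s := by linarith
  have q2 : 0 < mm - HH (2 * s) := by linarith
  have q3 : 0 < mm - HH (3 * s) := by linarith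
  have hp1 : 1 / (mm - HH s) * (mm - HH s) = 1 := one_div_mul_cancel q1.ne'
  have hp2 : 1 / (mm - HH (2 * s)) * (mm - HH (2 * s)) = 1 := one_div_mul_cancel q2.ne'
  have hp3 : 1 / (mm - HH (3 * s)) * (mm - HH (3 * s)) = 1 := one_div_mul_cancel q3.ne'
  have h12 : 1 / (mm - HH s) < 1 / (mm - HH (2 * s)) := one_div_lt_one_div_of_lt q2 (by linarith)
  have h23 : 1 / (mm - HH (2 * s)) < 1 / (mm - HH (3 * s)) :=
    one_div_lt_one_div_of_lt q3 (by linarith)
  have h31 : 1 / (mm - HH (3 * s)) ≤ 1 := by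
    rw [div_le_one q3]
    linarith
  have hpc1 : pc < 1 / (mm - HH s) := by
    unfold pc
    exact one_div_lt_one_div_of_lt q1 (by linarith)
  have hmm2 : mm ≤ 2 := by
    unfold mm
    rw [div_le_iff₀ ZZ_pos]
    linarith [ZZ_ge]
  have hhalf : 1 / 2 ≤ 1 / (mm - HH s) := one_div_le_one_div_of_le q1 (by linarith)
  have v1 := annealed_eq hs0 (by linarith) (by linarith [pc_pos]) (by linarith) hp1
  have v2 := annealed_eq (by linarith : 0 < 2 * s) (by linarith) (by linarith [pc_pos])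
    (by linarith) hp2
  have v3 := annealed_eq (by linarith : 0 < 3 * s) (by linarith) (by linarith [pc_pos]) h31 hp3
  have hbound := hMb _ _ _ hpc1 h12 h23 h3
  rw [v1, v2, v3] at hbound
  have hkey := key_estimate hM hs0 hs1 hp1 hp2 hp3 hhalf h12 h23 h31 hbound
  -- lower bound of the left hand side
  have hns : (7 : ℝ) ≤ nn (j + 1) * s := by
    rw [nn_succ, hs]
    push_cast
    have e : 128 * (nn j : ℝ) ^ 8 * (1 / (nn j : ℝ) ^ 4) = 128 * (nn j : ℝ) ^ 4 := by
      field_simp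
    rw [e]
    have : (1 : ℝ) ≤ (nn j : ℝ) ^ 4 := one_le_pow₀ hn1
    linarith
  have hlow := HH_second_ge hs0 hs1 hns
  have hlow2 : 1 / (512 * 2 ^ j * (nn j : ℝ) ^ 8) / 6 ≤
      s * (2 * HH (2 * s) - HH s - HH (3 * s)) := by
    have e : s * (cc (j + 1) / (6 * s)) = cc (j + 1) / 6 := by field_simp
    have := mul_le_mul_of_nonneg_left hlow hs0.le
    rw [e] at this
    have := cc_succ_ge j
    linarith
  -- upper bound of the increment
  have hinc := HH_incr_le hs0 (by linarith : 2 * s ≤ 1) j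
  have hinc2 : HH (2 * s) - HH s ≤ 3 / (nn j : ℝ) ^ 3 := by
    refine hinc.trans ?_
    have e1 : 2 * (nn j : ℝ) * s = 2 / (nn j : ℝ) ^ 3 := by
      rw [hs]; field_simp
    have e2 : 2 / ((nn (j + 1) : ℝ) * s) ≤ 1 / (nn j : ℝ) ^ 3 := by
      rw [nn_succ, hs]
      push_cast
      rw [div_le_div_iff₀ (by positivity) (by positivity)]
      have e3 : 1 * (128 * (nn j : ℝ) ^ 8 * (1 / (nn j : ℝ) ^ 4)) = 128 * (nn j : ℝ) ^ 4 := by
        field_simp
      rw [e3]
      have : (nn j : ℝ) ^ 3 ≤ (nn j : ℝ) ^ 4 := pow_le_pow_right₀ hn1 (by norm_num)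
      have h0 : (0 : ℝ) ≤ (nn j : ℝ) ^ 4 := by positivity
      linarith
    rw [e1]
    calc 2 / (nn j : ℝ) ^ 3 + 2 / ((nn (j + 1) : ℝ) * s)
        ≤ 2 / (nn j : ℝ) ^ 3 + 1 / (nn j : ℝ) ^ 3 := by linarith
      _ = 3 / (nn j : ℝ) ^ 3 := by ring
  have hC : 0 ≤ 4 * M + 4 / cc 1 := by
    have := cc_pos 1
    positivity
  have hup : (4 * M + 4 / cc 1) * (HH (2 * s) - HH s) ^ 3 ≤
      (4 * M + 4 / cc 1) * (27 / (nn j : ℝ) ^ 9) := by
    apply mul_le_mul_of_nonneg_left _ hC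
    calc (HH (2 * s) - HH s) ^ 3 ≤ (3 / (nn j : ℝ) ^ 3) ^ 3 :=
          pow_le_pow_left₀ (by linarith) hinc2 3
      _ = 27 / (nn j : ℝ) ^ 9 := by
          rw [div_pow, ← pow_mul]; norm_num
  have hfin := hlow2.trans (hkey.trans hup)
  rw [div_div, mul_div_assoc', div_le_div_iff₀ (by positivity) (by positivity)] at hfin
  have hn9 : (nn j : ℝ) ^ 9 = (nn j : ℝ) ^ 8 * nn j := by ring
  have hn8 : (0 : ℝ) < (nn j : ℝ) ^ 8 := by positivity
  have h20 : (nn j : ℝ) ≤ (512 * 6 * 27) * (4 * M + 4 / cc 1) * 2 ^ j := by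
    have h21 : (nn j : ℝ) ^ 8 * nn j ≤
        (nn j : ℝ) ^ 8 * ((512 * 6 * 27) * (4 * M + 4 / cc 1) * 2 ^ j) := by
      rw [← hn9]
      linarith
    exact le_of_mul_le_mul_left h21 hn8
  have h22 : (2 : ℝ) ^ j ≤ 64 ^ j := pow_le_pow_left₀ (by norm_num) (by norm_num) j
  have h23' : (0 : ℝ) < 64 ^ j := by positivity
  have h24 : (512 * 6 * 27) * (4 * M + 4 / cc 1) * 2 ^ j ≤
      (512 * 6 * 27) * (4 * M + 4 / cc 1) * 64 ^ j :=
    mul_le_mul_of_nonneg_left h22 (by positivity)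
  linarith

end analysis

/-- **Theorem.** There is an offspring distribution with mean `m ∈ (1, ∞)` whose annealed survival
function has an order-2 expansion at `p_c = 1 / m` from the right, but is not of class `C ^ 2` at
`p_c` from the right. -/
theorem result : ∃ μ : PMF ℕ, Summable (fun n => (μ n).toReal * (n : ℝ)) ∧ 1 < mean μ ∧
    HasExpansion (annealed μ) (1 / mean μ) 2 ∧ ¬ IsClass (annealed μ) (1 / mean μ) 2 := by
  refine ⟨mu, summable_mean, ?_, ?_, ?_⟩
  · rw [mean_mu]; exact mm_gt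
  · rw [mean_mu]; exact expansion
  · rw [mean_mu]; exact not_class

end Pool.Agent.Results.MP_97806e_pr.ExpansionNotSmooth
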